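import Pool.Agent.Helper91.Gon.Fbar

set_option autoImplicit false

open Helper14.Gon

namespace Pool.Agent.Results.MP_9c6ec7_al.RationalFunctionField

universe u

/-- Let `K` be an algebraic closure of `F_p` and `F = K(t)`. For every `n ≥ 2` the complex
`Γ(F, n) ⊗ ℚ` is acyclic: all its cohomology groups vanish. -/
theorem result (p : ℕ) [Fact p.Prime] (K : Type u) [Field K] [CharP K p] [IsAlgClosed K]
    (halg : ∀ x : K, ∃ P : Polynomial (ZMod p), P ≠ 0 ∧
      P.eval₂ (ZMod.castHom (dvd_refl p) K) x = 0) : Acyclic (RatFunc K) := by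
  have hp : p.Prime := Fact.out
  have h := exists_pow_eq p hp halg
  refine ⟨?_, fun k => ?_, fun k j z => ⟨fun hz => ?_, ?_⟩, fun j z => ⟨fun hz => ?_, ?_⟩,
    fun j z => ?_⟩
  · exact LinearMap.ker_eq_bot.1 (ratFunc_deg1 hp h 0)
  · exact LinearMap.ker_eq_bot.1 (ratFunc_deg1 hp h (k + 1))
  · exact Pool.Agent.Helper91.Gon.Glue.ratFunc_exact_dd hp h k j z hz
  · rintro ⟨y, rfl⟩
    exact dd_dd k j y
  · exact Pool.Agent.Helper91.Gon.Glue.ratFunc_exact_dl hp h j z hz
  · rintro ⟨y, rfl⟩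
    exact dl_dd j y
  · exact Pool.Agent.Helper91.Gon.Glue.ratFunc_surj_dl hp h j z

end Pool.Agent.Results.MP_9c6ec7_al.RationalFunctionField
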