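import Pool.Agent.QGC.Res
import Pool.Agent.QGC.Gal

set_option autoImplicit false

open Helper14.Gon Helper14.Loc

namespace Pool.Agent.Kept49.MP_9c6ec7_al.RationalNumbers

/-- `HC F 0 j` is `H^{n-1}(Γ(F, n) ⊗ ℚ)`, `n = j + 2`, and `HT F n` is `H^n(Γ(F, n) ⊗ ℚ)`.
* For all `n ≥ 2`: `H^n(Γ(ℚ, n) ⊗ ℚ) = H^{n-1}(Γ(ℚ, n) ⊗ ℚ) = 0`.  For `n = 2` and `n = 3` this
  is all the vanishing which Q1 predicts for `F = ℚ`: the complex `Γ(ℚ, 2) ⊗ ℚ` is acyclic, and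
  the cohomology of `Γ(ℚ, 3) ⊗ ℚ` is concentrated in degree `1`.
* Let `L` be an algebraic normal extension of `ℚ`, for example a number field which is Galois
  over `ℚ`.  For all `n ≥ 2` and `i = n, n - 1` the only class in `H^i(Γ(L, n) ⊗ ℚ)` which is
  fixed by all automorphisms of `L` is zero.  (`TGF.hmt n σ` and `TGF.hm 0 j σ` are the maps
  induced by `σ`.) -/
theorem result :
    ((∀ n : ℕ, 2 ≤ n → Subsingleton (HT ℚ n)) ∧ (∀ j : ℕ, Subsingleton (HC ℚ 0 j))) ∧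
    (∀ (L : Type) [Field L] [Algebra ℚ L] [Normal ℚ L],
      (∀ (n : ℕ), 2 ≤ n → ∀ c : HT L n,
        (∀ σ : L ≃ₐ[ℚ] L, TGF.hmt n (σ : L →+* L) c = c) → c = 0) ∧
      (∀ (j : ℕ) (c : HC L 0 j),
        (∀ σ : L ≃ₐ[ℚ] L, TGF.hm 0 j (σ : L →+* L) c = c) → c = 0)) :=
  ⟨QGC.main, fun L _ _ _ => ⟨fun n hn c hc => QGC.fix_top (QGC.main.1 n hn) c hc,
    fun j c hc => QGC.fix_mid (QGC.main.2 j) c hc⟩⟩

end Pool.Agent.Kept49.MP_9c6ec7_al.RationalNumbers
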